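import Pool.Agent.helper13.U4.SpecD

/-!
# Project U4 (MP_62ffdf_lc), row DC1
-/

set_option autoImplicit false

namespace Pool.Agent.U4

open Pool.Agent.UL

theorem DC1 : DC1_stmt := by
  intro k q h v x hP hF ρ σ hρ3 hρh hρ4 hσ
  have hh1 : 1 ≤ h := hP.hh ▸ Nat.one_le_two_pow
  have hq := hP.hq
  have hv := hP.hv
  have e1 : (2 * q - 1) * h + (h - 1) = v - h := by
    obtain ⟨p, rfl⟩ : ∃ p, q = p + 1 := ⟨q - 1, by omega⟩
    have e0 : 2 * (p + 1) - 1 = 2 * p + 1 := by omega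
    rw [e0]
    have e2 : 2 * h * (p + 1) = 2 * (p * h) + 2 * h := by ring
    have e3 : (2 * p + 1) * h = 2 * (p * h) + h := by ring
    rw [e2] at hv
    rw [e3]
    omega
  have e2 : (2 * q - 2) * h + (h - 1) = v - 2 * h := by
    obtain ⟨p, rfl⟩ : ∃ p, q = p + 1 := ⟨q - 1, by omega⟩
    have e0 : 2 * (p + 1) - 2 = 2 * p := by omega
    rw [e0]
    have e2 : 2 * h * (p + 1) = 2 * (p * h) + 2 * h := by ring
    have e3 : (2 * p) * h = 2 * (p * h) := by ring
    rw [e2] at hv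
    rw [e3]
    omega
  have x1 : x (v - h) (ρ - 2) = true := by
    rw [← e1]
    exact hF.fd (2 * q - 1) (ρ - 2) (by omega) (by omega) (by omega) (by omega)
  have x2 : x (v - 2 * h) (ρ - 2) = true := by
    rw [← e2]
    exact hF.fd (2 * q - 2) (ρ - 2) (by omega) (by omega) (by omega) (by omega)
  have x3 : x (σ + h) 0 = true := hF.r0 _ (by omega)
  have x4 : x (σ + 2 * h) 0 = true := hF.r0 _ (by omega)
  refine ⟨ρ - 2, v - h, 0, σ + h, ρ - 2, v - 2 * h, 0, σ + 2 * h, ?_, ?_, ?_, ?_⟩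
  · exact ⟨x1, x3, by omega, by omega, by omega, Or.inr ⟨by omega, by omega⟩⟩
  · exact ⟨x2, x4, by omega, by omega, by omega, Or.inr ⟨by omega, by omega⟩⟩
  · omega
  · omega

end Pool.Agent.U4
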